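import Pool.Agent.AEX.Der

/-!
# AEX: ideals of the even part which are stable up to multiplication under the derivation
-/

set_option autoImplicit false

namespace AEX

open CliffordAlgebra (evenOdd involute)
open Finset

/-- the even part of an ideal of the alternative algebra -/
structure DI (I : Submodule K L) : Prop where
  ev : ∀ x ∈ I, x ∈ Ev
  mul : ∀ x ∈ I, ∀ a ∈ Ev, x * a ∈ I
  der : ∀ x ∈ I, ∀ b ∈ Od, ∀ c ∈ Od, D x * b * c ∈ I

/-- `x * Od^(2k) ⊆ I` -/
def Q (I : Submodule K L) (k : ℕ) (x : L) : Prop := x ∈ Ev ∧ ∀ u ∈ Od ^ (2 * k), x * u ∈ I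

theorem D_Od_pow (n : ℕ) (u : L) (hu : u ∈ Od ^ n) : D u ∈ Od ^ n := by
  induction n generalizing u with
  | zero =>
    rw [pow_zero, Submodule.mem_one] at hu
    obtain ⟨c, rfl⟩ := hu
    rw [D_algebraMap]
    exact Submodule.zero_mem _
  | succ n ih =>
    rw [pow_succ] at hu ⊢
    refine Submodule.mul_induction_on hu ?_ ?_
    · intro a ha b hb
      rw [D_mul]
      exact Submodule.add_mem _ (Submodule.mul_mem_mul (ih a ha) hb)
        (Submodule.mul_mem_mul ha (D_od hb))
    · intro a b ha hb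
      rw [map_add]
      exact Submodule.add_mem _ ha hb

theorem Q_zero {I : Submodule K L} (hI : DI I) {x : L} (hx : x ∈ I) : Q I 0 x := by
  refine ⟨hI.ev x hx, fun u hu => ?_⟩
  rw [mul_zero, pow_zero, Submodule.mem_one] at hu
  obtain ⟨c, rfl⟩ := hu
  exact hI.mul x hx _ (algebraMap_mem_Ev c)

theorem Q_D {I : Submodule K L} (hI : DI I) {k : ℕ} {x : L} (hx : Q I k x) : Q I (k + 1) (D x) := by
  refine ⟨D_ev hx.1, fun u hu => ?_⟩
  have e1 : 2 * (k + 1) = 2 * k + 1 + 1 := by ring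
  rw [e1, pow_succ, pow_succ] at hu
  refine Submodule.mul_induction_on hu ?_ ?_
  · intro a ha c hc
    refine Submodule.mul_induction_on ha ?_ ?_
    · intro a' ha' b hb
      have h1 := hI.der _ (hx.2 a' ha') b hb c hc
      have h2 := hI.mul _ (hx.2 _ (D_Od_pow _ _ ha')) _ (od_mul_od hb hc)
      have h3 : D x * (a' * b * c) = D (x * a') * b * c - x * D a' * (b * c) := by
        rw [D_mul]; noncomm_ring
      rw [h3]
      exact I.sub_mem h1 h2
    · intro a b ha hb
      rw [add_mul, mul_add]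
      exact I.add_mem ha hb
  · intro a b ha hb
    rw [mul_add]
    exact I.add_mem ha hb

theorem Q_mul {I : Submodule K L} (hI : DI I) {k : ℕ} {x : L} (hx : Q I k x) {a : L} (ha : a ∈ Ev) :
    Q I k (x * a) := by
  refine ⟨ev_mul_ev hx.1 ha, fun u hu => ?_⟩
  rw [mul_assoc, ev_comm ha u, ← mul_assoc]
  exact hI.mul _ (hx.2 u hu) _ ha

theorem Q_smul {I : Submodule K L} {k : ℕ} {x : L} (c : K) (hx : Q I k x) : Q I k (c • x) := by
  refine ⟨Ev.smul_mem c hx.1, fun u hu => ?_⟩
  rw [smul_mul_assoc]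
  exact I.smul_mem c (hx.2 u hu)

theorem Q_unsmul {I : Submodule K L} {k : ℕ} {x : L} {c : K} (hc : c ≠ 0) (hx : Q I k (c • x)) :
    Q I k x := by
  have h := Q_smul c⁻¹ hx
  rwa [smul_smul, inv_mul_cancel₀ hc, one_smul] at h

theorem Q_Dpow {I : Submodule K L} (hI : DI I) {k : ℕ} {x : L} (hx : Q I k x) (n : ℕ) :
    Q I (k + n) ((D ^ n) x) := by
  induction n with
  | zero => exact hx
  | succ n ih =>
    rw [pow_succ', Module.End.mul_apply]
    exact Q_D hI ih

theorem Q_Dp {I : Submodule K L} (hI : DI I) {k : ℕ} {x : L} (hx : Q I k x) (m : ℕ) :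
    ∃ k', Q I k' (Dp m x) := by
  rw [Dp_eq]
  exact ⟨_, Q_Dpow hI hx _⟩

/-- moving one index far away -/
theorem push_one {I : Submodule K L} (hI : DI I) {k : ℕ} {X : Finset ℕ} (hX : Even X.card)
    (hx : Q I k (B X)) {Y : Finset ℕ} {i : ℕ} (hiX : i ∈ X) (hiY : i ∈ Y) :
    ∃ (k' : ℕ) (Z : Finset ℕ), Even Z.card ∧ Q I k' (B Z) ∧ (Z ∩ Y).card < (X ∩ Y).card := by
  set N := (X ∪ Y).sup id with hN
  have hle : ∀ j ∈ X ∪ Y, j ≤ N := fun j hj => le_sup (f := id) hj
  set m := N + 1 with hm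
  have hq : N < 3 ^ m := lt_of_lt_of_le (Nat.lt_succ_self N) (Nat.lt_pow_self (by norm_num)).le
  set X' := X.erase i with hX'
  have hi' : i ∉ X' := notMem_erase i X
  have hins : insert i X' = X := insert_erase hiX
  obtain ⟨c, hc, h1⟩ := replace (m := m) (i := i) (Y := X') hi' (by
    intro j hj
    rw [hins] at hj
    exact lt_of_le_of_lt (hle j (mem_union_left _ hj)) hq)
  rw [hins] at h1
  set T := insert (i + 3 ^ m) (X' ∪ X'.image (· + 3 ^ m)) with hT
  set r := T.sup id + N + 1 with hr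
  have hrT : r ∉ T := by
    intro h
    have := le_sup (f := id) h
    simp only [id] at this
    omega
  have hcard : T.card = 2 * X'.card + 1 := by
    have hd : Disjoint X' (X'.image (· + 3 ^ m)) := by
      rw [disjoint_left]
      intro j hj hj'
      rw [mem_image] at hj'
      obtain ⟨l, _, h⟩ := hj'
      have := hle j (mem_union_left _ (mem_of_mem_erase hj))
      omega
    have hn : i + 3 ^ m ∉ X' ∪ X'.image (· + 3 ^ m) := by
      rw [mem_union, not_or, mem_image]
      constructor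
      · intro h
        have := hle _ (mem_union_left _ (mem_of_mem_erase h))
        omega
      · rintro ⟨l, hl, h⟩
        have : l = i := by simpa using h
        exact hi' (this ▸ hl)
    rw [hT, card_insert_of_notMem hn, card_union_of_disjoint hd,
      card_image_of_injective _ (add_left_injective _)]
    ring
  have hX'c : X'.card + 1 = X.card := card_erase_add_one hiX
  have hodd : Odd (X'.image (· + 3 ^ m)).card := by
    rw [card_image_of_injective _ (add_left_injective _)]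
    rcases Nat.even_or_odd X'.card with h | h
    · exfalso
      rw [← hX'c, Nat.even_add_one] at hX
      exact hX h
    · exact h
  have hw : B (X'.image (· + 3 ^ m)) * e r ∈ Ev := od_mul_od ((B_par _).2 hodd) (e_mem r)
  obtain ⟨k1, hk1⟩ := Q_Dp hI hx m
  have hk2 := Q_mul hI hk1 hw
  obtain ⟨c2, hc2, h2⟩ := B_mul_e hrT
  rw [← mul_assoc, h1, smul_mul_assoc, h2, smul_smul] at hk2
  refine ⟨k1, insert r T, ?_, Q_unsmul (mul_ne_zero hc hc2) hk2, ?_⟩
  · rw [card_insert_of_notMem hrT, hcard]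
    exact ⟨X'.card + 1, by ring⟩
  · have hsub : insert r T ∩ Y ⊆ X' ∩ Y := by
      intro j hj
      rw [mem_inter, mem_insert, hT, mem_insert, mem_union, mem_image] at hj
      obtain ⟨h3, hjY⟩ := hj
      have hjN := hle j (mem_union_right _ hjY)
      rw [mem_inter]
      refine ⟨?_, hjY⟩
      rcases h3 with h | h | h | ⟨l, _, h⟩
      · omega
      · omega
      · exact h
      · omega
    refine lt_of_le_of_lt (card_le_card hsub) ?_
    apply card_lt_card
    rw [ssubset_iff_of_subset (inter_subset_inter (erase_subset _ _) (Subset.refl _))]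
    exact ⟨i, mem_inter.2 ⟨hiX, hiY⟩, fun h => hi' (mem_inter.1 h).1⟩

theorem push_all {I : Submodule K L} (hI : DI I) (Y : Finset ℕ) (n : ℕ) :
    ∀ (k : ℕ) (X : Finset ℕ), Even X.card → Q I k (B X) → (X ∩ Y).card ≤ n →
      ∃ (k' : ℕ) (Z : Finset ℕ), Q I k' (B Z) ∧ Disjoint Z Y := by
  induction n with
  | zero =>
    intro k X _ hx h
    refine ⟨k, X, hx, ?_⟩
    rw [disjoint_iff_inter_eq_empty]
    exact card_eq_zero.1 (Nat.le_zero.1 h)
  | succ n ih =>
    intro k X hX hx h
    rcases (X ∩ Y).eq_empty_or_nonempty with h0 | ⟨i, hi⟩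
    · exact ⟨k, X, hx, disjoint_iff_inter_eq_empty.2 h0⟩
    · obtain ⟨h1, h2⟩ := mem_inter.1 hi
      obtain ⟨k', Z, hZ, hz, hlt⟩ := push_one hI hX hx h1 h2
      exact ih k' Z hZ hz (by omega)

theorem even_of_mem {s : Finset ℕ} (h : B s ∈ Ev) : Even s.card := by
  rcases Nat.even_or_odd s.card with h1 | h1
  · exact h1
  exfalso
  have h2 := (B_par s).2 h1
  set r := s.sup id + 1 with hr
  have hrs : r ∉ s := by
    intro h'
    have := le_sup (f := id) h'
    simp only [id] at this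
    omega
  obtain ⟨c, hc, h3⟩ := e_mul_B hrs
  have h4 := ev_comm h (e r)
  rw [od_anti h2 (e_mem r)] at h4
  have h5 : (2 : K) • (e r * B s) = 0 := by
    rw [two_smul]
    nth_rw 1 [← h4]
    exact neg_add_cancel _
  have h6 : e r * B s = 0 := (smul_eq_zero.1 h5).resolve_left (by decide)
  rw [h6] at h3
  exact (smul_ne_zero hc (B_ne _)) h3.symm

/-- a nonzero element divides a monomial, with a cofactor of given parity -/
theorem exists_top_par {x : L} (hx : x ≠ 0) (b : Bool) :
    ∃ (n : ℕ) (s : Finset ℕ) (c : K), c ≠ 0 ∧ (if b then Even s.card else Odd s.card) ∧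
      x * B s = c • B (range n) := by
  obtain ⟨s, N, _, _, hs, h⟩ := exists_top hx
  have hcard : ∀ n, N ≤ n → (range n \ s).card = n - s.card := by
    intro n hn
    rw [card_sdiff_of_subset (hs.trans (range_subset_range.2 hn)), card_range]
  have hsN : s.card ≤ N := by
    have := card_le_card hs
    rwa [card_range] at this
  have h1 := hcard N le_rfl
  have h2 := hcard (N + 1) (Nat.le_succ N)
  obtain ⟨c1, hc1, e1⟩ := h N le_rfl
  obtain ⟨c2, hc2, e2⟩ := h (N + 1) (Nat.le_succ N)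
  rcases Nat.even_or_odd (N - s.card) with h3 | h3
  · cases b with
    | true => exact ⟨N, _, c1, hc1, by rw [if_pos rfl, h1]; exact h3, e1⟩
    | false =>
      refine ⟨N + 1, _, c2, hc2, ?_, e2⟩
      rw [if_neg (by decide), h2, show N + 1 - s.card = (N - s.card) + 1 by omega]
      exact h3.add_one
  · cases b with
    | false => exact ⟨N, _, c1, hc1, by rw [if_neg (by decide), h1]; exact h3, e1⟩
    | true =>
      refine ⟨N + 1, _, c2, hc2, ?_, e2⟩
      rw [if_pos rfl, h2, show N + 1 - s.card = (N - s.card) + 1 by omega]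
      exact h3.add_one

theorem near {I : Submodule K L} (hI : DI I) {x : L} (hx : x ∈ I) (h0 : x ≠ 0) :
    ∃ W : Finset ℕ, B W ∈ I := by
  obtain ⟨n, s, c, hc, hs, h⟩ := exists_top_par h0 true
  rw [if_pos rfl] at hs
  have h2 := hI.mul x hx _ ((B_par _).1 hs)
  rw [h] at h2
  have h3 := I.smul_mem c⁻¹ h2
  rw [smul_smul, inv_mul_cancel₀ hc, one_smul] at h3
  exact ⟨_, h3⟩

theorem far {I : Submodule K L} (hI : DI I) {x : L} (hx : x ∈ I) (h0 : x ≠ 0) (Y : Finset ℕ) :
    ∃ W : Finset ℕ, B W ∈ I ∧ Disjoint W Y := by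
  obtain ⟨W, hW⟩ := near hI hx h0
  obtain ⟨k, Z, hZ, hd⟩ := push_all hI Y _ 0 W (even_of_mem (hI.ev _ hW)) (Q_zero hI hW) le_rfl
  set M := (Z ∪ Y).sup id + 1 with hM
  have hle : ∀ j ∈ Z ∪ Y, j < M := fun j hj => Nat.lt_succ_of_le (le_sup (f := id) hj)
  set U := (range (2 * k)).image (· + M) with hU
  have hUc : U.card = 2 * k := by
    rw [hU, card_image_of_injective _ (add_left_injective _), card_range]
  have hUM : ∀ j ∈ U, M ≤ j := by
    intro j hj
    rw [hU, mem_image] at hj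
    obtain ⟨l, _, rfl⟩ := hj
    exact Nat.le_add_left M l
  have hZU : Disjoint Z U := by
    rw [disjoint_left]
    intro j hj hj'
    exact absurd (hUM j hj') (not_le.2 (hle j (mem_union_left _ hj)))
  have hYU : Disjoint U Y := by
    rw [disjoint_left]
    intro j hj hj'
    exact absurd (hUM j hj) (not_le.2 (hle j (mem_union_right _ hj')))
  have h1 := B_pow U
  rw [hUc] at h1
  have h2 := hZ.2 _ h1
  obtain ⟨c, hc, h3⟩ := B_mul hZU
  rw [h3] at h2
  have h4 := I.smul_mem c⁻¹ h2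
  rw [smul_smul, inv_mul_cancel₀ hc, one_smul] at h4
  exact ⟨_, h4, disjoint_union_left.2 ⟨hd, hYU⟩⟩

/-- two nonzero such ideals have nonzero product -/
theorem prod_ne {I J : Submodule K L} (hI : DI I) (hJ : DI J) {x y : L} (hx : x ∈ I) (hx0 : x ≠ 0)
    (hy : y ∈ J) (hy0 : y ≠ 0) : ∃ a ∈ I, ∃ b ∈ J, a * b ≠ 0 := by
  obtain ⟨W, hW⟩ := near hJ hy hy0
  obtain ⟨Z, hZ, hd⟩ := far hI hx hx0 W
  obtain ⟨c, hc, h⟩ := B_mul hd
  exact ⟨_, hZ, _, hW, by rw [h]; exact smul_ne_zero hc (B_ne _)⟩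

/-- the odd part: nonvanishing of `D(a) b c` -/
theorem odd_start {b : L} (hb : b ≠ 0) : ∃ a ∈ Ev, ∃ c ∈ Od, D a * (b * c) ≠ 0 := by
  obtain ⟨n, s, c, hc, hs, h⟩ := exists_top_par hb false
  rw [if_neg (by decide)] at hs
  refine ⟨e n * e (n + 1), od_mul_od (e_mem _) (e_mem _), B s, (B_par s).2 hs, ?_⟩
  have h1 : D (e n * e (n + 1)) = e n * e (n + 2) := by
    rw [D_mul, D_e, D_e, od_sq (e_mem _), zero_add]
  have hn2 : n + 2 ∉ range n := by rw [mem_range]; omega
  obtain ⟨c1, hc1, h2⟩ := e_mul_B hn2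
  have hn : n ∉ insert (n + 2) (range n) := by
    rw [mem_insert, mem_range]; omega
  obtain ⟨c2, hc2, h3⟩ := e_mul_B hn
  rw [h1, h, mul_smul_comm, mul_assoc, h2, mul_smul_comm, h3, smul_smul, smul_smul]
  exact smul_ne_zero (mul_ne_zero (mul_ne_zero hc hc1) hc2) (B_ne _)

end AEX
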