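import Pool.Agent.AEX.Alt
import Pool.Agent.AEX.Pri

/-!
# AEX: the algebra
-/

set_option autoImplicit false

namespace AEX

open CliffordAlgebra (evenOdd involute)
open Finset

/-- the even subalgebra -/
abbrev R : Type := ↥(CliffordAlgebra.even (0 : QuadraticForm K V))

/-- the odd part -/
abbrev M : Type := ↥Od

theorem R_mem (r : R) : (r : L) ∈ Ev := r.2

/-- an even element -/
noncomputable def mkR (x : L) (h : x ∈ Ev) : R := ⟨x, h⟩

noncomputable instance instCommR : CommRing R :=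
  { (inferInstance : Ring R) with
    mul_comm := fun a b => Subtype.ext (ev_comm (R_mem a) (b : L)) }

noncomputable instance instModRM : Module R M where
  smul r m := ⟨(r : L) * (m : L), ev_mul_od (R_mem r) m.2⟩
  one_smul m := Subtype.ext (one_mul (m : L))
  mul_smul a b m := Subtype.ext (mul_assoc (a : L) (b : L) (m : L))
  smul_zero a := Subtype.ext (mul_zero (a : L))
  smul_add a m n := Subtype.ext (mul_add (a : L) (m : L) (n : L))
  add_smul a b m := Subtype.ext (add_mul (a : L) (b : L) (m : L))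
  zero_smul m := Subtype.ext (zero_mul (m : L))

theorem coe_smul (r : R) (m : M) : ((r • m : M) : L) = (r : L) * (m : L) := rfl

/-- the form -/
noncomputable def wf : M →ₗ[R] M →ₗ[R] R :=
  LinearMap.mk₂ R (fun a b => mkR ((a : L) * (b : L)) (od_mul_od a.2 b.2))
    (fun a b c => Subtype.ext (add_mul (a : L) (b : L) (c : L)))
    (fun r a b => Subtype.ext (mul_assoc (r : L) (a : L) (b : L)))
    (fun a b c => Subtype.ext (mul_add (a : L) (b : L) (c : L)))
    (fun r a b => Subtype.ext (by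
      show (a : L) * ((r : L) * (b : L)) = (r : L) * ((a : L) * (b : L))
      rw [← mul_assoc, ← ev_comm (R_mem r) (a : L), mul_assoc]))

theorem coe_wf (a b : M) : ((wf a b : R) : L) = (a : L) * (b : L) := rfl

/-- the data -/
noncomputable def X : Data R M where
  w := wf
  d := { toFun := fun r => mkR (D (r : L)) (D_ev (R_mem r))
         map_zero' := Subtype.ext (map_zero D)
         map_add' := fun a b => Subtype.ext (map_add D (a : L) (b : L)) }
  D := { toFun := fun m => ⟨D (m : L), D_od m.2⟩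
         map_zero' := Subtype.ext (map_zero D)
         map_add' := fun a b => Subtype.ext (map_add D (a : L) (b : L)) }
  alt := fun m => Subtype.ext (od_sq m.2)
  cyc := fun a b c => Subtype.ext (by
    show (a : L) * (b : L) * (c : L) = (b : L) * (c : L) * (a : L)
    rw [mul_assoc, ev_comm (od_mul_od b.2 c.2) (a : L)])
  leib := fun a b => Subtype.ext (D_mul (a : L) (b : L))
  leibM := fun a m => Subtype.ext (D_mul (a : L) (m : L))
  leibw := fun a b => Subtype.ext (D_mul (a : L) (b : L))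
  three := Subtype.ext (by
    show ((3 : R) : L) = 0
    have h : (3 : R) = 1 + 1 + 1 := by norm_num
    rw [h]
    have h2 := three_nsmul (1 : L)
    exact h2)

/-- the algebra -/
structure A : Type where
  ev : R
  od : M

namespace A

@[ext] theorem ext' {x y : A} (h1 : (x.ev : L) = y.ev) (h2 : (x.od : L) = y.od) : x = y := by
  cases x; cases y
  congr
  · exact Subtype.ext h1
  · exact Subtype.ext h2

/-- the underlying pair -/
def equiv : A ≃ R × M where
  toFun x := (x.ev, x.od)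
  invFun x := ⟨x.1, x.2⟩
  left_inv _ := rfl
  right_inv _ := rfl

noncomputable instance : AddCommGroup A := equiv.addCommGroup

noncomputable instance : Module K A := equiv.module K

noncomputable instance : Mul A := ⟨fun x y => equiv.symm (X.mul (equiv x) (equiv y))⟩

theorem add_ev (x y : A) : ((x + y).ev : L) = x.ev + y.ev := rfl
theorem add_od (x y : A) : ((x + y).od : L) = x.od + y.od := rfl
theorem zero_ev : ((0 : A).ev : L) = 0 := rfl
theorem zero_od : ((0 : A).od : L) = 0 := rfl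
theorem smul_ev (c : K) (x : A) : ((c • x).ev : L) = c • (x.ev : L) := rfl
theorem smul_od (c : K) (x : A) : ((c • x).od : L) = c • (x.od : L) := rfl

theorem mul_ev (x y : A) : ((x * y).ev : L) =
    (x.ev : L) * y.ev + (x.od : L) * y.od + (x.od : L) * D y.od - D x.od * y.od := rfl

theorem mul_od (x y : A) : ((x * y).od : L) = (x.ev : L) * y.od + (y.ev : L) * x.od := rfl

noncomputable instance : NonUnitalNonAssocRing A where
  left_distrib a b c := by
    apply ext'
    · simp only [mul_ev, add_ev, add_od, map_add]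
      noncomm_ring
    · simp only [mul_od, add_ev, add_od]
      noncomm_ring
  right_distrib a b c := by
    apply ext'
    · simp only [mul_ev, add_ev, add_od, map_add]
      noncomm_ring
    · simp only [mul_od, add_ev, add_od]
      noncomm_ring
  zero_mul a := by
    apply ext'
    · simp only [mul_ev, zero_ev, zero_od, map_zero, zero_mul, add_zero, sub_zero]
    · simp only [mul_od, zero_ev, zero_od, zero_mul, mul_zero, add_zero]
  mul_zero a := by
    apply ext'
    · simp only [mul_ev, zero_ev, zero_od, map_zero, mul_zero, add_zero, sub_zero]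
    · simp only [mul_od, zero_ev, zero_od, zero_mul, mul_zero, add_zero]

instance : IsScalarTower K A A where
  smul_assoc c x y := by
    apply ext'
    · simp only [smul_eq_mul, mul_ev, smul_ev, smul_od, map_smul, smul_mul_assoc, smul_add, smul_sub]
    · simp only [smul_eq_mul, mul_od, smul_ev, smul_od, smul_mul_assoc, mul_smul_comm, smul_add]

instance : SMulCommClass K A A where
  smul_comm c x y := by
    apply ext'
    · simp only [smul_eq_mul, mul_ev, smul_ev, smul_od, map_smul, mul_smul_comm, smul_add, smul_sub]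
    · simp only [smul_eq_mul, mul_od, smul_ev, smul_od, smul_mul_assoc, mul_smul_comm, smul_add]

theorem left_alt (x y : A) : (x * x) * y = x * (x * y) := by
  apply equiv.injective
  exact X.left_alt (equiv x) (equiv y)

theorem right_alt (x y : A) : (y * x) * x = y * (x * x) := by
  apply equiv.injective
  exact X.right_alt (equiv x) (equiv y)

/-- even elements of the algebra -/
noncomputable def ofEv (a : L) (h : a ∈ Ev) : A := ⟨mkR a h, 0⟩

/-- odd elements of the algebra -/
noncomputable def ofOd (b : L) (h : b ∈ Od) : A := ⟨0, ⟨b, h⟩⟩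

theorem ofEv_ev (a : L) (h : a ∈ Ev) : ((ofEv a h).ev : L) = a := rfl
theorem ofEv_od (a : L) (h : a ∈ Ev) : ((ofEv a h).od : L) = 0 := rfl
theorem ofOd_ev (a : L) (h : a ∈ Od) : ((ofOd a h).ev : L) = 0 := rfl
theorem ofOd_od (a : L) (h : a ∈ Od) : ((ofOd a h).od : L) = a := rfl

/-- the associator of an even, an arbitrary and an odd element -/
theorem assoc_mid (a c : L) (ha : a ∈ Ev) (hc : c ∈ Od) (u : A) :
    ofEv a ha * (u * ofOd c hc) - (ofEv a ha * u) * ofOd c hc =
      ofEv (D a * ((u.od : L) * c)) (ev_mul_ev (D_ev ha) (od_mul_od u.od.2 hc)) := by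
  rw [sub_eq_iff_eq_add]
  have h1 := ev_comm (D_ev ha) (u.od : L)
  apply ext'
  · simp only [mul_ev, mul_od, add_ev, ofEv_ev, ofEv_od, ofOd_ev, ofOd_od, map_zero, zero_mul,
      mul_zero, add_zero, zero_add, sub_zero, D_mul]
    noncomm_ring
  · simp only [mul_ev, mul_od, add_od, ofEv_ev, ofEv_od, ofOd_ev, ofOd_od, map_zero, zero_mul,
      mul_zero, add_zero, zero_add, sub_zero]
    noncomm_ring

theorem ofEv_add (a b : L) (ha : a ∈ Ev) (hb : b ∈ Ev) :
    ofEv (a + b) (Ev.add_mem ha hb) = ofEv a ha + ofEv b hb := by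
  apply ext'
  · rfl
  · show (0 : L) = 0 + 0
    rw [add_zero]

theorem ofEv_smul (c : K) (a : L) (ha : a ∈ Ev) :
    ofEv (c • a) (Ev.smul_mem c ha) = c • ofEv a ha := by
  apply ext'
  · rfl
  · show (0 : L) = c • (0 : L)
    rw [smul_zero]

theorem ofEv_mul (a b : L) (ha : a ∈ Ev) (hb : b ∈ Ev) :
    ofEv a ha * ofEv b hb = ofEv (a * b) (ev_mul_ev ha hb) := by
  apply ext'
  · simp only [mul_ev, ofEv_ev, ofEv_od, map_zero, zero_mul, mul_zero, add_zero, sub_zero]
  · simp only [mul_od, ofEv_ev, ofEv_od, map_zero, zero_mul, mul_zero, add_zero, sub_zero]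

/-- the even part of an ideal -/
noncomputable def I0 (I : Submodule K A) : Submodule K L where
  carrier := {x | ∃ h : x ∈ Ev, ofEv x h ∈ I}
  zero_mem' := ⟨Ev.zero_mem, by
    have : ofEv 0 Ev.zero_mem = 0 := by
      apply ext'
      · rfl
      · rfl
    rw [this]
    exact I.zero_mem⟩
  add_mem' := by
    rintro a b ⟨ha, hA⟩ ⟨hb, hB⟩
    refine ⟨Ev.add_mem ha hb, ?_⟩
    rw [ofEv_add a b ha hb]
    exact I.add_mem hA hB
  smul_mem' := by
    rintro c a ⟨ha, hA⟩
    refine ⟨Ev.smul_mem c ha, ?_⟩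
    rw [ofEv_smul c a ha]
    exact I.smul_mem c hA

theorem I0_DI {I : Submodule K A} (hI : ∀ a x : A, x ∈ I → a * x ∈ I ∧ x * a ∈ I) : DI (I0 I) where
  ev := fun x hx => hx.1
  mul := by
    rintro x ⟨hx, hX⟩ a ha
    refine ⟨ev_mul_ev hx ha, ?_⟩
    rw [← ofEv_mul x a hx ha]
    exact (hI _ _ hX).2
  der := by
    rintro x ⟨hx, hX⟩ b hb c hc
    rw [mul_assoc]
    refine ⟨ev_mul_ev (D_ev hx) (od_mul_od hb hc), ?_⟩
    have h := assoc_mid x c hx hc (ofOd b hb)
    have h2 : ofEv (D x * (((ofOd b hb).od : L) * c))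
        (ev_mul_ev (D_ev hx) (od_mul_od (ofOd b hb).od.2 hc)) ∈ I := by
      rw [← h]
      exact I.sub_mem (hI _ _ hX).2 (hI _ _ (hI _ _ hX).2).2
    exact h2

theorem I0_ne {I : Submodule K A} (hI : ∀ a x : A, x ∈ I → a * x ∈ I ∧ x * a ∈ I) (h : I ≠ ⊥) :
    ∃ x ∈ I0 I, x ≠ 0 := by
  obtain ⟨u, hu, hu0⟩ := Submodule.exists_mem_ne_zero_of_ne_bot h
  by_cases hod : (u.od : L) = 0
  · have e1 : u = ofEv (u.ev : L) (R_mem u.ev) := by
      apply ext'
      · rfl
      · rw [hod]
        rfl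
    refine ⟨(u.ev : L), ⟨R_mem u.ev, e1 ▸ hu⟩, fun h0 => hu0 ?_⟩
    apply ext'
    · rw [h0, zero_ev]
    · rw [hod, zero_od]
  · obtain ⟨a, ha, c, hc, hne⟩ := odd_start hod
    refine ⟨_, ⟨ev_mul_ev (D_ev ha) (od_mul_od u.od.2 hc), ?_⟩, hne⟩
    rw [← assoc_mid a c ha hc u]
    exact I.sub_mem (hI _ _ (hI _ _ hu).2).1 (hI _ _ (hI _ _ hu).1).2

theorem prime (I J : Submodule K A) (hI : ∀ a x : A, x ∈ I → a * x ∈ I ∧ x * a ∈ I)
    (hJ : ∀ a x : A, x ∈ J → a * x ∈ J ∧ x * a ∈ J)
    (hIJ : ∀ x y : A, x ∈ I → y ∈ J → x * y = 0) : I = ⊥ ∨ J = ⊥ := by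
  by_contra hcon
  rw [not_or] at hcon
  obtain ⟨x, hx, hx0⟩ := I0_ne hI hcon.1
  obtain ⟨y, hy, hy0⟩ := I0_ne hJ hcon.2
  obtain ⟨a, ⟨ha, hA⟩, b, ⟨hb, hB⟩, hab⟩ := prod_ne (I0_DI hI) (I0_DI hJ) hx hx0 hy hy0
  apply hab
  have h := hIJ _ _ hA hB
  rw [ofEv_mul a b ha hb] at h
  exact congrArg (fun z : A => (z.ev : L)) h

theorem e01_ne : e 0 * e 1 ≠ 0 := by
  obtain ⟨c, hc, h⟩ := e_mul_B (i := 0) (s := {1}) (by decide)
  rw [B_single] at h
  rw [h]
  exact smul_ne_zero hc (B_ne _)

theorem noncomm : ∃ x y : A, x * y ≠ y * x := by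
  refine ⟨ofOd (e 0) (e_mem 0), ofOd (e 1) (e_mem 1), fun h => ?_⟩
  have h1 := congrArg (fun z : A => (z.ev : L)) h
  simp only [mul_ev, ofOd_ev, ofOd_od, mul_zero, zero_add, D_e] at h1
  rw [od_sq (e_mem 1), od_anti (e_mem (1 + 1)) (e_mem 0), od_anti (e_mem 1) (e_mem 0)] at h1
  have h3 := sub_eq_zero.2 h1
  have h2 : (2 : K) • (e 0 * e 1) = 0 := by
    rw [two_smul, ← h3]
    abel
  exact e01_ne ((smul_eq_zero.1 h2).resolve_left (by decide))

theorem nonassoc : ∃ x y z : A, (x * y) * z ≠ x * (y * z) := by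
  have h0 : e 0 ≠ 0 := by
    intro h
    exact e01_ne (by rw [h, zero_mul])
  obtain ⟨a, ha, c, hc, hne⟩ := odd_start h0
  refine ⟨ofEv a ha, ofOd (e 0) (e_mem 0), ofOd c hc, fun h => hne ?_⟩
  have h1 := assoc_mid a c ha hc (ofOd (e 0) (e_mem 0))
  rw [h, sub_self] at h1
  exact (congrArg (fun z : A => (z.ev : L)) h1).symm

theorem zero_div : ∃ z : A, z ≠ 0 ∧ ∀ x : A, (z * x) * z = 0 := by
  have hm : e 0 * e 1 ∈ Ev := od_mul_od (e_mem 0) (e_mem 1)
  have hs : e 0 * e 1 * (e 0 * e 1) = 0 := by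
    rw [← mul_assoc, e_mid, zero_mul]
  refine ⟨ofEv (e 0 * e 1) hm, fun h => e01_ne ?_, fun x => ?_⟩
  · exact congrArg (fun z : A => (z.ev : L)) h
  · apply ext'
    · simp only [mul_ev, mul_od, ofEv_ev, ofEv_od, zero_ev, map_zero, zero_mul, mul_zero, add_zero,
        sub_zero]
      rw [ev_comm hm (x.ev : L), mul_assoc, hs, mul_zero]
    · simp only [mul_ev, mul_od, ofEv_ev, ofEv_od, zero_od, map_zero, zero_mul, mul_zero, add_zero,
        zero_add, sub_zero]
      rw [← mul_assoc, hs, zero_mul]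

end A

/-- the theorem -/
theorem main :
    ∃ (Φ : Type) (A : Type) (_ : CommRing Φ) (_ : NonUnitalNonAssocRing A) (_ : Module Φ A)
      (_ : IsScalarTower Φ A A) (_ : SMulCommClass Φ A A),
      (∀ x y : A, (x * x) * y = x * (x * y)) ∧
      (∀ x y : A, (y * x) * x = y * (x * x)) ∧
      (∀ I J : Submodule Φ A,
        (∀ a x : A, x ∈ I → a * x ∈ I ∧ x * a ∈ I) →
        (∀ a x : A, x ∈ J → a * x ∈ J ∧ x * a ∈ J) →
        (∀ x y : A, x ∈ I → y ∈ J → x * y = 0) → I = ⊥ ∨ J = ⊥) ∧
      (∃ x y : A, x * y ≠ y * x) ∧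
      (∃ x y z : A, (x * y) * z ≠ x * (y * z)) ∧
      (∃ z : A, z ≠ 0 ∧ ∀ x : A, (z * x) * z = 0) :=
  ⟨K, A, inferInstance, inferInstance, inferInstance, inferInstance, inferInstance,
    A.left_alt, A.right_alt, A.prime, A.noncomm, A.nonassoc, A.zero_div⟩

end AEX
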