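import Mathlib

/-!
# AEX: an alternative algebra of characteristic three

`R` commutative ring with derivation, `M` an `R`-module with an alternating form `w : M × M → R`
such that `w a b • c = w b c • a`; on `R × M` the product
`(a,b)(c,d) = (ac + w b d + w b d' - w b' d, a d + c b)` is alternative if `3 = 0`.
-/

set_option autoImplicit false

namespace AEX

/-- the data -/
structure Data (R M : Type) [CommRing R] [AddCommGroup M] [Module R M] where
  w : M →ₗ[R] M →ₗ[R] R
  d : R →+ R
  D : M →+ M
  alt : ∀ m, w m m = 0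
  cyc : ∀ a b c, w a b • c = w b c • a
  leib : ∀ a b, d (a * b) = d a * b + a * d b
  leibM : ∀ (a : R) (m : M), D (a • m) = d a • m + a • D m
  leibw : ∀ a b, d (w a b) = w (D a) b + w a (D b)
  three : (3 : R) = 0

variable {R M : Type} [CommRing R] [AddCommGroup M] [Module R M]

/-- the product -/
def Data.mul (X : Data R M) (x y : R × M) : R × M :=
  (x.1 * y.1 + X.w x.2 y.2 + X.w x.2 (X.D y.2) - X.w (X.D x.2) y.2, x.1 • y.2 + y.1 • x.2)

theorem Data.swap (X : Data R M) (a b : M) : X.w a b = - X.w b a := by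
  have h := X.alt (a + b)
  simp only [map_add, LinearMap.add_apply, X.alt, zero_add, add_zero] at h
  exact eq_neg_of_add_eq_zero_right h

theorem Data.w2 (X : Data R M) (a b : M) : X.w a b • a = 0 := by
  have h := X.cyc b a a
  rw [X.alt, zero_smul] at h
  rw [X.swap, neg_smul, h, neg_zero]

theorem Data.w3 (X : Data R M) (a b : M) : X.w a b • b = 0 := by
  rw [X.cyc, X.alt, zero_smul]

theorem Data.left_alt (X : Data R M) (x y : R × M) :
    X.mul (X.mul x x) y = X.mul x (X.mul x y) := by
  obtain ⟨a, b⟩ := x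
  obtain ⟨c, e⟩ := y
  have h3 := X.three
  have hD : ∀ m : M, (3 : R) • m = 0 := fun m => by rw [h3, zero_smul]
  simp only [Data.mul, Prod.mk.injEq, map_add, map_smul, LinearMap.add_apply,
    LinearMap.smul_apply, smul_eq_mul, X.leibM, X.alt]
  have s1 := X.swap (X.D b) b
  constructor
  · rw [s1]
    linear_combination (-(X.d a * X.w b e)) * h3
  · have t1 : X.w b e • b = 0 := X.w2 b e
    have t2 : X.w b (X.D e) • b = 0 := X.w2 b (X.D e)
    have t3 : X.w b (X.D b) • e = X.w (X.D b) e • b := X.cyc b (X.D b) e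
    have t4 := hD (X.w b (X.D b) • e)
    rw [s1]
    linear_combination (norm := module) t4 - t1 - t2 - t3

theorem Data.right_alt (X : Data R M) (x y : R × M) :
    X.mul (X.mul y x) x = X.mul y (X.mul x x) := by
  obtain ⟨a, b⟩ := x
  obtain ⟨c, e⟩ := y
  have h3 := X.three
  have hD : ∀ m : M, (3 : R) • m = 0 := fun m => by rw [h3, zero_smul]
  simp only [Data.mul, Prod.mk.injEq, map_add, map_smul, LinearMap.add_apply,
    LinearMap.smul_apply, smul_eq_mul, X.leibM, X.alt]
  have s1 := X.swap (X.D b) b
  constructor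
  · rw [s1]
    linear_combination (-(X.d a * X.w e b)) * h3
  · have t1 : X.w e b • b = 0 := X.w3 e b
    have t2 : X.w (X.D e) b • b = 0 := X.w3 (X.D e) b
    have t3 : X.w e (X.D b) • b = X.w (X.D b) b • e := X.cyc e (X.D b) b
    have t4 := hD (X.w b (X.D b) • e)
    rw [s1] at t3 ⊢
    linear_combination (norm := module) t1 + t3 - t2 - t4

end AEX
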