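import Pool.Agent.AEX.Mon

/-!
# AEX: the derivations `D^(3^m)` and the replacement of an index
-/

set_option autoImplicit false

namespace AEX

open CliffordAlgebra (evenOdd involute)
open Finset

theorem three_nsmul (x : L) : x + x + x = 0 := by
  have h : (3 : K) • x = 0 := by
    rw [show (3 : K) = 0 from rfl, zero_smul]
  have h2 : (3 : K) • x = x + x + x := by
    rw [show (3 : K) = 1 + 1 + 1 from rfl, add_smul, add_smul, one_smul]
  rw [← h2, h]

/-- the cube of a derivation is a derivation -/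
theorem leib_cube {f : L →ₗ[K] L} (hf : ∀ x y, f (x * y) = f x * y + x * f y) (x y : L) :
    (f ^ 3) (x * y) = (f ^ 3) x * y + x * (f ^ 3) y := by
  have h1 : ∀ z, (f ^ 3) z = f (f (f z)) := fun z => rfl
  rw [h1, h1, h1, hf, map_add, hf, hf, map_add, map_add, map_add, hf, hf, hf]
  have h2 := three_nsmul (f (f x) * f y)
  have h3 := three_nsmul (f x * f (f y))
  have h4 : f (f (f x)) * y + f (f x) * f y + (f (f x) * f y + f x * f (f y)) +
      (f (f x) * f y + f x * f (f y) + (f x * f (f y) + x * f (f (f y)))) =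
      f (f (f x)) * y + x * f (f (f y)) + (f (f x) * f y + f (f x) * f y + f (f x) * f y) +
        (f x * f (f y) + f x * f (f y) + f x * f (f y)) := by abel
  rw [h4, h2, h3, add_zero, add_zero]

/-- `D^(3^m)` -/
noncomputable def Dp : ℕ → (L →ₗ[K] L)
  | 0 => D
  | m + 1 => (Dp m) ^ 3

theorem Dp_mul (m : ℕ) (x y : L) : Dp m (x * y) = Dp m x * y + x * Dp m y := by
  induction m generalizing x y with
  | zero => exact D_mul x y
  | succ m ih => exact leib_cube ih x y

theorem Dp_eq (m : ℕ) : Dp m = D ^ (3 ^ m) := by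
  induction m with
  | zero => rw [pow_zero, pow_one]; rfl
  | succ m ih =>
    show (Dp m) ^ 3 = _
    rw [ih, ← pow_mul, pow_succ]

theorem D_pow_e (n i : ℕ) : (D ^ n) (e i) = e (i + n) := by
  induction n with
  | zero => rfl
  | succ n ih =>
    rw [pow_succ', Module.End.mul_apply, ih, D_e]
    rfl

theorem Dp_e (m i : ℕ) : Dp m (e i) = e (i + 3 ^ m) := by
  rw [Dp_eq, D_pow_e]

theorem Dp_ev (m : ℕ) {x : L} (hx : x ∈ Ev) : Dp m x ∈ Ev := by
  induction m generalizing x with
  | zero => exact D_ev hx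
  | succ m ih => exact ih (ih (ih hx))

theorem Dp_od (m : ℕ) {x : L} (hx : x ∈ Od) : Dp m x ∈ Od := by
  induction m generalizing x with
  | zero => exact D_od hx
  | succ m ih => exact ih (ih (ih hx))

theorem Dp_one (m : ℕ) : Dp m 1 = 0 := by
  induction m with
  | zero => exact D_one
  | succ m ih =>
    show Dp m (Dp m (Dp m 1)) = 0
    rw [ih, map_zero, map_zero]

theorem e_mid (i : ℕ) (x : L) : e i * x * e i = 0 := by
  unfold e
  rw [io_mul, mul_assoc, ExteriorAlgebra.ι_sq_zero, mul_zero]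

/-- a homogeneous element commutes with a generator up to sign -/
theorem e_swap (i : ℕ) (s : Finset ℕ) (m : ℕ) :
    Dp m (B s) * e i = e i * Dp m (B s) ∨ Dp m (B s) * e i = -(e i * Dp m (B s)) := by
  rcases Nat.even_or_odd s.card with h | h
  · exact Or.inl (ev_comm (Dp_ev m ((B_par s).1 h)) (e i))
  · exact Or.inr (od_anti (Dp_od m ((B_par s).2 h)) (e_mem i))

/-- the killing lemma -/
theorem kill (m : ℕ) (Y : Finset ℕ) : Dp m (B Y) * B (Y.image (· + 3 ^ m)) = 0 := by
  induction Y using Finset.induction_on with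
  | empty => rw [B_empty, Dp_one, zero_mul]
  | insert j Y hj ih =>
    have hj' : j + 3 ^ m ∉ Y.image (· + 3 ^ m) := by
      rw [mem_image]
      rintro ⟨k, hk, h⟩
      have : k = j := by simpa using h
      exact hj (this ▸ hk)
    obtain ⟨c, _, h1⟩ := B_insert hj
    obtain ⟨c', _, h2⟩ := B_insert hj'
    rw [image_insert, h1, h2, map_smul, smul_mul_smul_comm, Dp_mul, Dp_e, add_mul]
    have h3 : e (j + 3 ^ m) * B Y * (e (j + 3 ^ m) * B (Y.image (· + 3 ^ m))) = 0 := by
      rw [← mul_assoc, e_mid, zero_mul]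
    have h4 : e j * Dp m (B Y) * (e (j + 3 ^ m) * B (Y.image (· + 3 ^ m))) = 0 := by
      rw [mul_assoc, ← mul_assoc (Dp m (B Y))]
      rcases e_swap (j + 3 ^ m) Y m with h | h
      · rw [h, mul_assoc (e (j + 3 ^ m)), ih, mul_zero, mul_zero]
      · rw [h, neg_mul, mul_assoc (e (j + 3 ^ m)), ih, mul_zero, neg_zero, mul_zero]
    rw [h3, h4, add_zero, smul_zero]

/-- the replacement lemma -/
theorem replace {m i : ℕ} {Y : Finset ℕ} (hi : i ∉ Y) (hq : ∀ j ∈ insert i Y, j < 3 ^ m) :
    ∃ c : K, c ≠ 0 ∧ Dp m (B (insert i Y)) * B (Y.image (· + 3 ^ m)) =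
      c • B (insert (i + 3 ^ m) (Y ∪ Y.image (· + 3 ^ m))) := by
  obtain ⟨c, hc, h1⟩ := B_insert hi
  have hd : Disjoint Y (Y.image (· + 3 ^ m)) := by
    rw [disjoint_left]
    intro j hj hj'
    rw [mem_image] at hj'
    obtain ⟨k, _, h⟩ := hj'
    have := hq j (mem_insert_of_mem hj)
    omega
  have hn : i + 3 ^ m ∉ Y ∪ Y.image (· + 3 ^ m) := by
    rw [mem_union, not_or, mem_image]
    constructor
    · intro h
      have := hq _ (mem_insert_of_mem h)
      omega
    · rintro ⟨k, hk, h⟩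
      have : k = i := by simpa using h
      exact hi (this ▸ hk)
  obtain ⟨c2, hc2, h2⟩ := B_mul hd
  obtain ⟨c3, hc3, h3⟩ := e_mul_B hn
  refine ⟨c * (c2 * c3), mul_ne_zero hc (mul_ne_zero hc2 hc3), ?_⟩
  rw [h1, map_smul, smul_mul_assoc, Dp_mul, Dp_e, add_mul, mul_assoc (e i), kill, mul_zero,
    add_zero, mul_assoc, h2, mul_smul_comm, h3, smul_smul, smul_smul, mul_assoc c c2 c3]

end AEX
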