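import Mathlib

/-!
# AEX: the exterior algebra on countably many generators with the shift derivation
-/

set_option autoImplicit false

namespace AEX

open CliffordAlgebra (evenOdd involute)

/-- the field with three elements -/
abbrev K : Type := ZMod 3

/-- the span of the generators -/
abbrev V : Type := ℕ →₀ K

/-- the exterior algebra -/
abbrev L : Type := ExteriorAlgebra K V

/-- even part -/
noncomputable def Ev : Submodule K L := evenOdd (0 : QuadraticForm K V) 0

/-- odd part -/
noncomputable def Od : Submodule K L := evenOdd (0 : QuadraticForm K V) 1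

/-- vectors -/
noncomputable abbrev io : V →ₗ[K] L := ExteriorAlgebra.ι K

/-- the generators -/
noncomputable def e (i : ℕ) : L := io (Finsupp.single i (1 : K))

/-- the shift -/
noncomputable def sh : V →ₗ[K] V := Finsupp.lmapDomain K K (fun i => i + 1)

theorem sh_single (i : ℕ) : sh (Finsupp.single i (1 : K)) = Finsupp.single (i + 1) 1 := by
  unfold sh
  rw [Finsupp.lmapDomain_apply, Finsupp.mapDomain_single]

/-- the homomorphism to the dual numbers -/
noncomputable def dual : L →ₐ[K] TrivSqZeroExt L L :=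
  ExteriorAlgebra.lift K
    ⟨(TrivSqZeroExt.inlAlgHom K L L).toLinearMap ∘ₗ io +
      (TrivSqZeroExt.inrHom L L).restrictScalars K ∘ₗ (io ∘ₗ sh), by
      intro v
      ext
      · simp
      · simp [ExteriorAlgebra.ι_add_mul_swap]⟩

theorem dual_io (v : V) : dual (io v) = TrivSqZeroExt.inl (io v) + TrivSqZeroExt.inr (io (sh v)) := by
  unfold dual
  rw [ExteriorAlgebra.lift_ι_apply]
  rfl

theorem dual_fst (x : L) : (dual x).fst = x := by
  have h : (TrivSqZeroExt.fstHom K L L).comp dual = AlgHom.id K L := by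
    apply ExteriorAlgebra.hom_ext
    ext v
    simp [dual_io]
  have := congrArg (fun f => f x) h
  exact this

/-- the derivation -/
noncomputable def D : L →ₗ[K] L where
  toFun x := (dual x).snd
  map_add' x y := by rw [map_add, TrivSqZeroExt.snd_add]
  map_smul' c x := by rw [map_smul, TrivSqZeroExt.snd_smul, RingHom.id_apply]

theorem D_mul (x y : L) : D (x * y) = D x * y + x * D y := by
  show (dual (x * y)).snd = _
  rw [map_mul, TrivSqZeroExt.snd_mul, dual_fst, dual_fst, add_comm]
  rfl

theorem D_io (v : V) : D (io v) = io (sh v) := by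
  show (dual (io v)).snd = _
  rw [dual_io]
  simp

theorem D_e (i : ℕ) : D (e i) = e (i + 1) := by
  unfold e
  rw [D_io, sh_single]

theorem D_algebraMap (c : K) : D (algebraMap K L c) = 0 := by
  show (dual (algebraMap K L c)).snd = _
  rw [AlgHom.commutes]
  rfl

theorem D_one : D 1 = 0 := by
  rw [← map_one (algebraMap K L)]
  exact D_algebraMap 1

/-! ## parity -/

theorem io_mem (v : V) : io v ∈ Od := CliffordAlgebra.ι_mem_evenOdd_one _ v

theorem e_mem (i : ℕ) : e i ∈ Od := io_mem _

theorem one_mem_Ev : (1 : L) ∈ Ev := by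
  apply CliffordAlgebra.one_le_evenOdd_zero
  exact Submodule.one_le.1 le_rfl

theorem algebraMap_mem_Ev (c : K) : algebraMap K L c ∈ Ev := by
  rw [Algebra.algebraMap_eq_smul_one]
  exact Ev.smul_mem c one_mem_Ev

theorem ev_mul_ev {x y : L} (hx : x ∈ Ev) (hy : y ∈ Ev) : x * y ∈ Ev := by
  have h := CliffordAlgebra.evenOdd_mul_le (0 : QuadraticForm K V) 0 0 (Submodule.mul_mem_mul hx hy)
  exact h

theorem ev_mul_od {x y : L} (hx : x ∈ Ev) (hy : y ∈ Od) : x * y ∈ Od := by
  have h := CliffordAlgebra.evenOdd_mul_le (0 : QuadraticForm K V) 0 1 (Submodule.mul_mem_mul hx hy)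
  exact h

theorem od_mul_ev {x y : L} (hx : x ∈ Od) (hy : y ∈ Ev) : x * y ∈ Od := by
  have h := CliffordAlgebra.evenOdd_mul_le (0 : QuadraticForm K V) 1 0 (Submodule.mul_mem_mul hx hy)
  exact h

theorem od_mul_od {x y : L} (hx : x ∈ Od) (hy : y ∈ Od) : x * y ∈ Ev := by
  have h := CliffordAlgebra.evenOdd_mul_le (0 : QuadraticForm K V) 1 1 (Submodule.mul_mem_mul hx hy)
  exact h

theorem io_mul (v : V) (x : L) : io v * x = involute x * io v := by
  induction x using ExteriorAlgebra.induction with
  | algebraMap r =>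
    rw [AlgHom.commutes]
    exact (Algebra.commutes r (io v)).symm
  | ι w =>
    have h := ExteriorAlgebra.ι_add_mul_swap (R := K) v w
    have h2 : involute (io w) = - io w := CliffordAlgebra.involute_ι w
    rw [h2, neg_mul]
    exact eq_neg_of_add_eq_zero_left h
  | mul a b ha hb => rw [map_mul, ← mul_assoc, ha, mul_assoc, hb, mul_assoc]
  | add a b ha hb => rw [map_add, mul_add, add_mul, ha, hb]

theorem inv_ev {x : L} (hx : x ∈ Ev) : involute x = x := CliffordAlgebra.involute_eq_of_mem_even hx

theorem inv_od {x : L} (hx : x ∈ Od) : involute x = -x := CliffordAlgebra.involute_eq_of_mem_odd hx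

theorem ev_comm {x : L} (hx : x ∈ Ev) (y : L) : x * y = y * x := by
  induction y using ExteriorAlgebra.induction with
  | algebraMap r => exact (Algebra.commutes r x).symm
  | ι w =>
    have h := io_mul w x
    rw [inv_ev hx] at h
    exact h.symm
  | mul a b ha hb => rw [← mul_assoc, ha, mul_assoc, hb, mul_assoc]
  | add a b ha hb => rw [mul_add, add_mul, ha, hb]

theorem od_anti {x y : L} (hx : x ∈ Od) (hy : y ∈ Od) : x * y = -(y * x) := by
  induction y, hy using CliffordAlgebra.odd_induction with
  | ι v =>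
    have h := io_mul v x
    rw [inv_od hx, neg_mul] at h
    rw [show CliffordAlgebra.ι (0 : QuadraticForm K V) v = io v from rfl, h, neg_neg]
  | add x' y' hx' hy' h1 h2 => rw [mul_add, add_mul, h1, h2, neg_add]
  | ι_mul_ι_mul m₁ m₂ x' h ih =>
    have h3 := CliffordAlgebra.ι_mul_ι_mem_evenOdd_zero (0 : QuadraticForm K V) m₁ m₂
    rw [← mul_assoc x, ← ev_comm h3 x, mul_assoc _ x, ih, mul_neg, mul_assoc _ _ x]

theorem od_sq {x : L} (hx : x ∈ Od) : x * x = 0 := by
  have h := od_anti hx hx
  have h2 : (2 : K) • (x * x) = 0 := by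
    rw [two_smul]
    nth_rw 1 [h]
    exact neg_add_cancel _
  have h3 : (2 : K) ≠ 0 := by decide
  exact (smul_eq_zero.1 h2).resolve_left h3

theorem D_ev {x : L} (hx : x ∈ Ev) : D x ∈ Ev := by
  induction x, hx using CliffordAlgebra.even_induction with
  | algebraMap r => 
    have := D_algebraMap r
    rw [show algebraMap K (CliffordAlgebra (0 : QuadraticForm K V)) r = algebraMap K L r from rfl, this]
    exact Ev.zero_mem
  | add x' y' hx' hy' h1 h2 => rw [map_add]; exact Ev.add_mem h1 h2
  | ι_mul_ι_mul m₁ m₂ x' h ih =>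
    rw [D_mul, D_mul, show CliffordAlgebra.ι (0 : QuadraticForm K V) = io from rfl, D_io, D_io]
    refine Ev.add_mem (ev_mul_ev (Ev.add_mem ?_ ?_) h) (ev_mul_ev ?_ ih)
    · exact od_mul_od (io_mem _) (io_mem _)
    · exact od_mul_od (io_mem _) (io_mem _)
    · exact od_mul_od (io_mem _) (io_mem _)

theorem D_od {x : L} (hx : x ∈ Od) : D x ∈ Od := by
  induction x, hx using CliffordAlgebra.odd_induction with
  | ι v =>
    rw [show CliffordAlgebra.ι (0 : QuadraticForm K V) v = io v from rfl, D_io]
    exact io_mem _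
  | add x' y' hx' hy' h1 h2 => rw [map_add]; exact Od.add_mem h1 h2
  | ι_mul_ι_mul m₁ m₂ x' h ih =>
    rw [D_mul, D_mul, show CliffordAlgebra.ι (0 : QuadraticForm K V) = io from rfl, D_io, D_io]
    refine Od.add_mem (ev_mul_od (Ev.add_mem ?_ ?_) h) (ev_mul_od ?_ ih)
    · exact od_mul_od (io_mem _) (io_mem _)
    · exact od_mul_od (io_mem _) (io_mem _)
    · exact od_mul_od (io_mem _) (io_mem _)

end AEX
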