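import Pool.Agent.AEX.Ext

/-!
# AEX: monomials
-/

set_option autoImplicit false

namespace AEX

open CliffordAlgebra (evenOdd involute)
open Finset

/-- the basis of monomials -/
noncomputable def B : Module.Basis (Finset ℕ) K L :=
  (Finsupp.basisSingleOne : Module.Basis ℕ K V).ExteriorAlgebra

theorem B_mul_zero {s t : Finset ℕ} (h : ¬ Disjoint s t) : B s * B t = 0 := by
  have := ExteriorAlgebra.basis_mul_of_not_disjoint (Finsupp.basisSingleOne : Module.Basis ℕ K V)
    (⟨s, rfl⟩ : Set.powersetCard ℕ s.card) (⟨t, rfl⟩ : Set.powersetCard ℕ t.card) h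
  exact this

theorem B_mul {s t : Finset ℕ} (h : Disjoint s t) :
    ∃ c : K, c ≠ 0 ∧ B s * B t = c • B (s ∪ t) := by
  have h1 := ExteriorAlgebra.basis_mul_of_disjoint (Finsupp.basisSingleOne : Module.Basis ℕ K V)
    (⟨s, rfl⟩ : Set.powersetCard ℕ s.card) (⟨t, rfl⟩ : Set.powersetCard ℕ t.card) h
  rw [Set.powersetCard.coe_disjUnion, Finset.disjUnion_eq_union] at h1
  rcases Int.units_eq_one_or
    (Equiv.Perm.sign (Set.powersetCard.permOfDisjoint (s := (⟨s, rfl⟩ : Set.powersetCard ℕ s.card))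
      (t := (⟨t, rfl⟩ : Set.powersetCard ℕ t.card)) h)) with h2 | h2
  · rw [h2, one_smul] at h1
    exact ⟨1, one_ne_zero, by rw [one_smul]; exact h1⟩
  · rw [h2, Units.neg_smul, one_smul] at h1
    exact ⟨-1, by decide, by rw [neg_smul, one_smul]; exact h1⟩

theorem B_empty : B ∅ = 1 := by
  unfold B
  rw [ExteriorAlgebra.basis_apply_ofCard (n := 0) _ rfl]
  simp [ExteriorAlgebra.ιMulti_family]

theorem B_single (i : ℕ) : B {i} = e i := by
  unfold B e io
  rw [ExteriorAlgebra.basis_apply_ofCard (n := 1) _ rfl]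
  simp only [ExteriorAlgebra.ιMulti_family, ExteriorAlgebra.ιMulti_succ_apply,
    ExteriorAlgebra.ιMulti_zero_apply, mul_one, Function.comp, Finsupp.coe_basisSingleOne]
  congr 2
  have h := Set.powersetCard.mem_range_ofFinEmbEquiv_symm_iff_mem
    (Set.powersetCard.ofCard (show ({i} : Finset ℕ).card = 1 from rfl))
    ((Set.powersetCard.ofFinEmbEquiv.symm
      (Set.powersetCard.ofCard (show ({i} : Finset ℕ).card = 1 from rfl))) 0)
  have h2 := h.1 ⟨0, rfl⟩
  exact Finset.mem_singleton.1 h2

theorem e_mul_B {i : ℕ} {s : Finset ℕ} (h : i ∉ s) :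
    ∃ c : K, c ≠ 0 ∧ e i * B s = c • B (insert i s) := by
  obtain ⟨c, hc, h1⟩ := B_mul (s := {i}) (t := s) (by rwa [disjoint_singleton_left])
  rw [B_single] at h1
  exact ⟨c, hc, by rw [h1, insert_eq]⟩

theorem e_mul_B_zero {i : ℕ} {s : Finset ℕ} (h : i ∈ s) : e i * B s = 0 := by
  rw [← B_single]
  exact B_mul_zero (by rw [disjoint_singleton_left, not_not]; exact h)

theorem B_mul_e {i : ℕ} {s : Finset ℕ} (h : i ∉ s) :
    ∃ c : K, c ≠ 0 ∧ B s * e i = c • B (insert i s) := by
  obtain ⟨c, hc, h1⟩ := B_mul (s := s) (t := {i}) (by rwa [disjoint_singleton_right])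
  rw [B_single] at h1
  exact ⟨c, hc, by rw [h1, insert_eq, union_comm]⟩

/-- a monomial with one factor split off -/
theorem B_insert {i : ℕ} {s : Finset ℕ} (h : i ∉ s) :
    ∃ c : K, c ≠ 0 ∧ B (insert i s) = c • (e i * B s) := by
  obtain ⟨c, hc, h1⟩ := e_mul_B h
  exact ⟨c⁻¹, inv_ne_zero hc, by rw [h1, smul_smul, inv_mul_cancel₀ hc, one_smul]⟩

theorem B_pow (s : Finset ℕ) : B s ∈ Od ^ s.card := by
  induction s using Finset.induction_on with
  | empty =>
    rw [B_empty, card_empty, pow_zero]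
    exact Submodule.one_le.1 le_rfl
  | insert i s hi ih =>
    obtain ⟨c, _, h⟩ := B_insert hi
    rw [h, card_insert_of_notMem hi, add_comm, pow_add, pow_one]
    exact Submodule.smul_mem _ _ (Submodule.mul_mem_mul (e_mem i) ih)

theorem B_par (s : Finset ℕ) : (Even s.card → B s ∈ Ev) ∧ (Odd s.card → B s ∈ Od) := by
  induction s using Finset.induction_on with
  | empty =>
    rw [B_empty, card_empty]
    exact ⟨fun _ => one_mem_Ev, fun h => absurd h (by decide)⟩
  | insert i s hi ih =>
    obtain ⟨c, _, h⟩ := B_insert hi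
    rw [h, card_insert_of_notMem hi]
    constructor
    · intro h'
      have : Odd s.card := by
        rcases Nat.even_or_odd s.card with h1 | h1
        · exact absurd h' (by rw [Nat.even_add_one]; exact not_not.2 h1)
        · exact h1
      exact Ev.smul_mem _ (od_mul_od (e_mem i) (ih.2 this))
    · intro h'
      have : Even s.card := by
        rcases Nat.even_or_odd s.card with h1 | h1
        · exact h1
        · exact absurd h' (by rw [Nat.odd_add_one]; exact not_not.2 h1)
      exact Od.smul_mem _ (od_mul_ev (e_mem i) (ih.1 this))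

theorem B_ne (s : Finset ℕ) : B s ≠ 0 := B.ne_zero s

/-- every nonzero element divides a monomial -/
theorem exists_top {x : L} (hx : x ≠ 0) :
    ∃ (s : Finset ℕ) (N : ℕ) (c : K), c ≠ 0 ∧ s ⊆ range N ∧ ∀ n, N ≤ n →
      ∃ c' : K, c' ≠ 0 ∧ x * B (range n \ s) = c' • B (range n) := by
  have hr : B.repr x ≠ 0 := fun h => hx (by simpa using h)
  have hne : (B.repr x).support.Nonempty := Finsupp.support_nonempty_iff.2 hr
  obtain ⟨s, hs, hmin⟩ := exists_min_image (B.repr x).support Finset.card hne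
  set N := ((B.repr x).support.sup id).sup id + 1 with hN
  have hsub : ∀ t ∈ (B.repr x).support, t ⊆ range N := by
    intro t ht i hi
    rw [mem_range, hN, Nat.lt_succ_iff]
    have h1 : i ∈ (B.repr x).support.sup id := by
      rw [mem_sup]
      exact ⟨t, ht, hi⟩
    exact le_sup (f := id) h1
  refine ⟨s, N, B.repr x s, Finsupp.mem_support_iff.1 hs, hsub s hs, fun n hn => ?_⟩
  have hsub' : ∀ t ∈ (B.repr x).support, t ⊆ range n := fun t ht =>
    (hsub t ht).trans (range_subset_range.2 hn)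
  obtain ⟨c, hc, h1⟩ := B_mul (s := s) (t := range n \ s) disjoint_sdiff
  rw [union_sdiff_of_subset (hsub' s hs)] at h1
  refine ⟨B.repr x s * c, mul_ne_zero (Finsupp.mem_support_iff.1 hs) hc, ?_⟩
  conv_lhs => rw [← B.linearCombination_repr x]
  rw [Finsupp.linearCombination_apply, Finsupp.sum, sum_mul, sum_eq_single s]
  · rw [smul_mul_assoc, h1, smul_smul]
  · intro t ht hts
    rw [smul_mul_assoc]
    rw [B_mul_zero, smul_zero]
    intro hd
    apply hts
    have h2 : t ⊆ s := by
      intro i hi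
      by_contra his
      exact (disjoint_left.1 hd hi) (mem_sdiff.2 ⟨hsub' t ht hi, his⟩)
    exact eq_of_subset_of_card_le h2 (hmin t ht)
  · intro h
    rw [Finsupp.notMem_support_iff.1 h, zero_smul, zero_mul]

end AEX
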